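import Mathlib
import Pool.Agent.H214R2.Orb2

/-! Patterns of primes occurring in Cunningham sequences of both kinds. -/

open Finset Pool.Agent.H214R2.Orb Pool.Agent.H361R2 in
theorem Pool.Agent.Results.MP_c183ae_nt.BothKinds.result :
    ∀ m : ℕ, 1 ≤ m →
    (∃ K : ℕ, ∀ A : Finset ℕ, A.card = K → ∃ T : Finset ℕ, 0 ∈ T ∧ T.card = m ∧
      (∃ t, T.image (fun i => i + t) ⊆ A) ∧ ∀ M : ℕ,
        {p : ℕ | p.Prime ∧ ∀ i ≤ M, ((2 ^ i * (p + 1) - 1).Prime ↔ i ∈ T)}.Infinite ∧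
        {p : ℕ | p.Prime ∧ ∀ i ≤ M, ((2 ^ i * (p - 1) + 1).Prime ↔ i ∈ T)}.Infinite) ∧
    (∃ c : ℝ, 0 < c ∧ ∃ N₀ : ℕ, ∀ N : ℕ, N₀ ≤ N →
      c * (N : ℝ) ^ (m - 1) ≤ ({T : Finset ℕ | T ⊆ range N ∧ 0 ∈ T ∧ T.card = m ∧ ∀ M : ℕ,
        {p : ℕ | p.Prime ∧ ∀ i ≤ M, ((2 ^ i * (p + 1) - 1).Prime ↔ i ∈ T)}.Infinite ∧
        {p : ℕ | p.Prime ∧ ∀ i ≤ M,
          ((2 ^ i * (p - 1) + 1).Prime ↔ i ∈ T)}.Infinite}.ncard : ℝ)) := by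
  have he : IsUnit (1 : ℤ) := isUnit_one
  have he' : IsUnit (-1 : ℤ) := isUnit_one.neg
  have hIP : ∀ (i n : ℕ), (IP ((2 : ℤ) ^ i * n + 1) ↔ (2 ^ i * n + 1).Prime) := by
    intro i n
    have h2 : (2 : ℤ) ^ i * n + 1 = ((2 ^ i * n + 1 : ℕ) : ℤ) := by
      push_cast; ring
    rw [h2]
    constructor
    · rintro ⟨p, hp, hpe⟩
      have : 2 ^ i * n + 1 = p := by exact_mod_cast hpe
      rw [this]; exact hp
    · intro h; exact ⟨_, h, rfl⟩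
  have hIP' : ∀ (i n : ℕ), 0 < n → (IP ((2 : ℤ) ^ i * n + (-1)) ↔ (2 ^ i * n - 1).Prime) := by
    intro i n hn
    have h1 : 1 ≤ 2 ^ i * n := Nat.mul_pos (by positivity) hn
    have h2 : (2 : ℤ) ^ i * n + (-1) = ((2 ^ i * n - 1 : ℕ) : ℤ) := by
      push_cast [Nat.cast_sub h1]; ring
    rw [h2]
    constructor
    · rintro ⟨p, hp, hpe⟩
      have : 2 ^ i * n - 1 = p := by exact_mod_cast hpe
      rw [this]; exact hp
    · intro h; exact ⟨_, h, rfl⟩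
  have hGood : ∀ T : Finset ℕ, GoodT (-1) T ∧ GoodT 1 T → ∀ M : ℕ,
      {p : ℕ | p.Prime ∧ ∀ i ≤ M, ((2 ^ i * (p + 1) - 1).Prime ↔ i ∈ T)}.Infinite ∧
      {p : ℕ | p.Prime ∧ ∀ i ≤ M, ((2 ^ i * (p - 1) + 1).Prime ↔ i ∈ T)}.Infinite := by
    intro T hT M
    constructor
    · refine (hT.1 M).mono ?_
      rintro p ⟨hp, h⟩
      refine ⟨hp, fun i hi => ?_⟩
      rw [← h i hi, ← hIP' i (p + 1) (by omega)]
      have : (2 : ℤ) ^ i * ((p : ℤ) - -1) + -1 = (2 : ℤ) ^ i * ((p + 1 : ℕ) : ℤ) + -1 := by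
        push_cast; ring
      rw [this]
    · refine (hT.2 M).mono ?_
      rintro p ⟨hp, h⟩
      refine ⟨hp, fun i hi => ?_⟩
      rw [← h i hi, ← hIP i (p - 1)]
      have : (2 : ℤ) ^ i * ((p : ℤ) - 1) + 1 = (2 : ℤ) ^ i * ((p - 1 : ℕ) : ℤ) + 1 := by
        rw [Nat.cast_sub hp.one_le]; push_cast; ring
      rw [this]
  intro m hm
  obtain ⟨K₀, _, hK₀⟩ := mtz_exists m
  obtain ⟨k, hmk, hk⟩ := hits_and hm (hits_of_mtz hK₀ he' hm) (hits_of_mtz hK₀ he hm)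
  refine ⟨⟨k, fun A hA => ?_⟩, ?_⟩
  · obtain ⟨T, hT0, hTc, hTg, t, ht⟩ := hk A hA
    exact ⟨T, hT0, hTc, ⟨t, ht⟩, hGood T hTg⟩
  · obtain ⟨c, hc, N₀, h⟩ := proportion_gen hk hmk hm
    refine ⟨c, hc, N₀, fun N hN => (h N hN).trans ?_⟩
    rw [← Set.ncard_coe_finset]
    have hfin : {T : Finset ℕ | T ⊆ range N ∧ 0 ∈ T ∧ T.card = m ∧ ∀ M : ℕ,
        {p : ℕ | p.Prime ∧ ∀ i ≤ M, ((2 ^ i * (p + 1) - 1).Prime ↔ i ∈ T)}.Infinite ∧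
        {p : ℕ | p.Prime ∧ ∀ i ≤ M,
          ((2 ^ i * (p - 1) + 1).Prime ↔ i ∈ T)}.Infinite}.Finite :=
      (finite_toSet (range N).powerset).subset (fun T hT => by
        simp only [coe_powerset, Set.mem_preimage, Set.mem_powerset_iff, coe_subset]
        exact hT.1)
    have hle := Set.ncard_le_ncard
      (s := (gSets (fun T => GoodT (-1) T ∧ GoodT 1 T) m N : Set (Finset ℕ))) (fun T hT => by
      simp only [gSets, coe_filter, Set.mem_ofPred_eq, mem_powerset] at hT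
      exact ⟨hT.1, hT.2.1, hT.2.2.1, hGood T hT.2.2.2⟩) hfin
    exact_mod_cast hle
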