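import Mathlib
import Pool.Agent.H361R2.InfCor2

/-! Infinite exact patterns of primes of one kind, with no primes of the other kind. -/

theorem Pool.Agent.Results.MP_c183ae_nt.OneKindOnly.result :
    ∀ δ : ℤ, (δ = 1 ∨ δ = -1) → ∀ ε : ℝ, 0 < ε → ∃ E : Set ℕ,
      (∃ᶠ X : ℕ in Filter.atTop, (Real.log X) ^ (1 - ε) ≤ ((E ∩ Set.Iio X).ncard : ℝ)) ∧
      ∀ M : ℕ, {n : ℕ | ∀ j ≤ M, (Nat.Prime (2 ^ j * (n : ℤ) + δ).toNat ↔ j ∈ E) ∧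
        ¬ Nat.Prime (2 ^ j * (n : ℤ) - δ).toNat}.Infinite :=
  fun δ hδ ε hε => Pool.Agent.H361R2.Inf.pure_kind δ hδ ε hε
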