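import Pool.Agent.H661R3.OP.Final

open Finset

namespace Pool.Agent.Results.MP_c183ae_nt.RoughChainParity

/-- **Almost prime Cunningham chains of every length with prescribed parity.**
Let `c j n` be the `j`-th term of the chain of the first kind `n, 2 n + 1, 4 n + 3, ...` starting at `n`
(`c j n = 2 ^ j (n + 1) - 1`) or of the second kind `n, 2 n - 1, 4 n - 3, ...`
(`c j n = 2 ^ j (n - 1) + 1`). Let `k` be a length, `S` a set of an odd number of positions `j < k` and
`ε > 0`. Then there are `R` and `δ > 0` such that for all large `x` there are at least `x ^ (1 - ε)` positive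
integers `n ≤ x` such that all the terms `c j n`, `j < k`, are products of at most `R` primes, all larger
than `x ^ δ`, and the product of the terms with `j ∈ S` has an odd number of prime factors (counted with
multiplicity), and at least `x ^ (1 - ε)` such `n` for which this number is even. -/
theorem result (c : ℕ → ℕ → ℕ)
    (hc : (∀ j n, c j n = 2 ^ j * (n + 1) - 1) ∨ (∀ j n, c j n = 2 ^ j * (n - 1) + 1))
    (k : ℕ) (S : Finset ℕ) (hS : S ⊆ range k) (hodd : Odd S.card) (ε : ℝ) (hε : 0 < ε) :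
    ∃ (R : ℕ) (δ : ℝ), 0 < δ ∧ ∃ x₀ : ℝ, ∀ x : ℝ, x₀ ≤ x →
    x ^ (1 - ε) ≤ ({n : ℕ | 0 < n ∧ (n : ℝ) ≤ x ∧
      (∀ j < k, ArithmeticFunction.cardFactors (c j n) ≤ R ∧
        ∀ p : ℕ, p.Prime → p ∣ c j n → x ^ δ < p) ∧
      Odd (∑ j ∈ S, ArithmeticFunction.cardFactors (c j n))}.ncard : ℝ) ∧
    x ^ (1 - ε) ≤ ({n : ℕ | 0 < n ∧ (n : ℝ) ≤ x ∧
      (∀ j < k, ArithmeticFunction.cardFactors (c j n) ≤ R ∧
        ∀ p : ℕ, p.Prime → p ∣ c j n → x ^ δ < p) ∧
      Even (∑ j ∈ S, ArithmeticFunction.cardFactors (c j n))}.ncard : ℝ) := by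
  classical
  -- the sign: `e = 1` for the first kind and `e = -1` for the second kind
  obtain ⟨e, he, hce⟩ : ∃ e : ℤ, (e = 1 ∨ e = -1) ∧
      ∀ (j n : ℕ), 0 < n → ((c j n : ℕ) : ℤ) = 2 ^ j * (n : ℤ) + e * (2 ^ j - 1) := by
    rcases hc with hc | hc
    · refine ⟨1, Or.inl rfl, fun j n hn => ?_⟩
      rw [hc]
      have h1 : 1 ≤ 2 ^ j * (n + 1) := Nat.one_le_iff_ne_zero.2 (by positivity)
      rw [Nat.cast_sub h1]
      push_cast
      ring
    · refine ⟨-1, Or.inr rfl, fun j n hn => ?_⟩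
      rw [hc]
      push_cast [Nat.cast_sub (Nat.succ_le_of_lt hn)]
      ring
  have hnat : ∀ (j n : ℕ), 0 < n → (2 ^ j * (n : ℤ) + e * (2 ^ j - 1)).natAbs = c j n := by
    intro j n hn
    rw [← hce j n hn, Int.natAbs_natCast]
  have hcpos : ∀ (j n : ℕ), 0 < n → 0 < c j n := by
    intro j n hn
    rcases hc with hc | hc
    · rw [hc]
      have h1 : 1 ≤ 2 ^ j := Nat.one_le_two_pow
      have h2 : 2 ≤ 2 ^ j * (n + 1) := by nlinarith
      omega
    · rw [hc]; omega
  have hcard : (S.subtype (· ∈ range k)).card = S.card := by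
    rw [Finset.card_subtype]
    congr 1
    exact Finset.filter_true_of_mem fun x hx => hS hx
  have hsum : ∀ n : ℕ, ∑ i ∈ S.subtype (· ∈ range k), ArithmeticFunction.cardFactors (c (i : ℕ) n) =
      ∑ j ∈ S, ArithmeticFunction.cardFactors (c j n) := by
    intro n
    rw [Finset.sum_subtype_of_mem (p := (· ∈ range k))
      (fun j => ArithmeticFunction.cardFactors (c j n)) (fun x hx => hS hx)]
  obtain ⟨R, δ, hδ, x₀, h⟩ := Pool.Agent.H661R3.OP.both Pool.Agent.H661R3.OP.liou
    {j // j ∈ range k} (fun j => 2 ^ (j : ℕ)) (fun j => e * (2 ^ (j : ℕ) - 1))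
    (S.subtype (· ∈ range k)) (fun _ => by positivity) (by
      intro i j hij h0
      apply hij
      apply Subtype.ext
      have h1 : e * ((2 : ℤ) ^ (j : ℕ) - 2 ^ (i : ℕ)) = 0 := by linear_combination h0
      have h2 : (2 : ℤ) ^ (j : ℕ) - 2 ^ (i : ℕ) = 0 := by
        rcases he with rfl | rfl <;> linarith
      have h3 : (2 : ℤ) ^ (i : ℕ) = 2 ^ (j : ℕ) := by linarith
      exact Int.pow_right_injective (by norm_num : 1 < (2 : ℤ).natAbs) h3) (by rw [hcard]; exact hodd)
    (by
      intro p hp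
      refine ⟨-e, fun i hd => ?_⟩
      have h1 : (2 : ℤ) ^ (i : ℕ) * (-e) + e * (2 ^ (i : ℕ) - 1) = -e := by ring
      rw [h1] at hd
      have h2 : (p : ℤ) ∣ 1 := by
        rcases he with rfl | rfl
        · exact (dvd_neg.1 hd)
        · simpa using hd
      have h3 : p ∣ 1 := by exact_mod_cast h2
      exact hp.one_lt.ne' (Nat.dvd_one.1 h3)) ε hε
  refine ⟨R, δ, hδ, x₀, fun x hx => ?_⟩
  have key := h x hx
  refine ⟨key.1.trans (le_of_eq ?_), key.2.trans (le_of_eq ?_)⟩
  · congr 2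
    ext n
    constructor
    · rintro ⟨h1, h2, h3, h4⟩
      refine ⟨h1, h2, fun j hj => ?_, ?_⟩
      · have h5 := h3 ⟨j, mem_range.2 hj⟩
        simp only [hnat j n h1] at h5
        refine ⟨h5.2.1, fun p hp hpd => h5.2.2 p hp ?_⟩
        rw [← hce j n h1]
        exact Int.natCast_dvd_natCast.2 hpd
      · rw [← hsum n]
        simpa only [hnat _ n h1] using h4
    · rintro ⟨h1, h2, h3, h4⟩
      refine ⟨h1, h2, fun j => ?_, ?_⟩
      · have h5 := h3 j (mem_range.1 j.2)
        have h6 := hcpos j n h1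
        refine ⟨?_, ?_, fun p hp hpd => h5.2 p hp ?_⟩
        · rw [← hce j n h1]; exact_mod_cast h6
        · rw [hnat j n h1]; exact h5.1
        · rw [← hce j n h1] at hpd
          exact Int.natCast_dvd_natCast.1 hpd
      · rw [← hsum n] at h4
        simpa only [hnat _ n h1] using h4
  · congr 2
    ext n
    constructor
    · rintro ⟨h1, h2, h3, h4⟩
      refine ⟨h1, h2, fun j hj => ?_, ?_⟩
      · have h5 := h3 ⟨j, mem_range.2 hj⟩
        simp only [hnat j n h1] at h5
        refine ⟨h5.2.1, fun p hp hpd => h5.2.2 p hp ?_⟩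
        rw [← hce j n h1]
        exact Int.natCast_dvd_natCast.2 hpd
      · rw [← hsum n]
        simpa only [hnat _ n h1] using h4
    · rintro ⟨h1, h2, h3, h4⟩
      refine ⟨h1, h2, fun j => ?_, ?_⟩
      · have h5 := h3 j (mem_range.1 j.2)
        have h6 := hcpos j n h1
        refine ⟨?_, ?_, fun p hp hpd => h5.2 p hp ?_⟩
        · rw [← hce j n h1]; exact_mod_cast h6
        · rw [hnat j n h1]; exact h5.1
        · rw [← hce j n h1] at hpd
          exact Int.natCast_dvd_natCast.1 hpd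
      · rw [← hsum n] at h4
        simpa only [hnat _ n h1] using h4

end Pool.Agent.Results.MP_c183ae_nt.RoughChainParity
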